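import Pool.Agent.H9.PCF.Final2

/-!
# Every fiber of `π : R_d^N → M_d^{N-1}` contains only countably many postcritically finite maps
-/

namespace Pool.Agent.Results.MP_6903ed_ag.PCFCountableInFibers

open MvPolynomial Pool.Agent.H9.PCF

/-- Let `d ≥ 2`, and let `[F_1 : … : F_N]` be an endomorphism of `P^{N-1}` of degree `d`.

1. The postcritically finite maps in the fiber of `π` over its class fall into countably many
   affine conjugacy classes.
2. For every family of such maps with an uncountable parameter set `C`, such as the set of points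
   of an algebraic curve over `ℂ`, uncountably many members are affinely conjugate to each other.
3. If `k` is an algebraically closed subfield of `ℂ` that contains the coefficients of `F`, every
   such map is affinely conjugate to a map with coefficients in `k`. -/
theorem result {N d : ℕ} (hd : 2 ≤ d) (F : Fin N → MvPolynomial (Fin N) ℂ) (hF : IsForms d F) :
    (∃ T : Set (Fin N → MvPolynomial (Fin N) ℂ), T.Countable ∧
      ∀ f, IsPCFInFiber d F f → ∃ g ∈ T, AffineConj f g) ∧
    (∀ (C : Type) [Uncountable C] (φ : C → Fin N → MvPolynomial (Fin N) ℂ),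
      (∀ c, IsPCFInFiber d F (φ c)) → ∃ c₀, ¬ {c | AffineConj (φ c₀) (φ c)}.Countable) ∧
    (∀ (k : Subfield ℂ) [IsAlgClosed k], (∀ i m, coeff m (F i) ∈ k) →
      ∀ f, IsPCFInFiber d F f → ∃ g, AffineConj f g ∧ ∀ i m, coeff m (g i) ∈ k) :=
  ⟨main_countable hd hF, fun C _ φ hφ => main_curve hd hF C φ hφ,
    fun k _ hk f hf => main_field hd hF k hk f hf⟩

end Pool.Agent.Results.MP_6903ed_ag.PCFCountableInFibers
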